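import Pool.Agent.H23.GB.Targets

/-!
# Counting the characters with small character sums
-/

set_option autoImplicit false

open Finset Polynomial
open scoped Classical

namespace Pool.Agent.H80.GB.ZC

open Pool.Agent.H23.GW Pool.Agent.H23.GA Pool.Agent.H23.GB

noncomputable section

/-- bound of the cubic polynomial -/
lemma q_abs (α β γ y Y : ℝ) (h0 : 0 ≤ y) (h1 : y ≤ Y) (h2 : 1 ≤ Y) :
    |α * y + β * y ^ 2 + γ * y ^ 3| ≤ (|α| + |β| + |γ|) * (y * Y ^ 2) := by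
  have hY : 0 ≤ Y := by linarith
  have e1 : |α * y| ≤ |α| * (y * Y ^ 2) := by
    rw [abs_mul, abs_of_nonneg h0]
    refine mul_le_mul_of_nonneg_left ?_ (abs_nonneg _)
    have : y * 1 ≤ y * Y ^ 2 := mul_le_mul_of_nonneg_left (by nlinarith) h0
    linarith
  have e2 : |β * y ^ 2| ≤ |β| * (y * Y ^ 2) := by
    rw [abs_mul, abs_of_nonneg (by positivity : 0 ≤ y ^ 2)]
    refine mul_le_mul_of_nonneg_left ?_ (abs_nonneg _)
    have : y * y ≤ y * Y ^ 2 := mul_le_mul_of_nonneg_left (by nlinarith) h0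
    nlinarith
  have e3 : |γ * y ^ 3| ≤ |γ| * (y * Y ^ 2) := by
    rw [abs_mul, abs_of_nonneg (by positivity : 0 ≤ y ^ 3)]
    refine mul_le_mul_of_nonneg_left ?_ (abs_nonneg _)
    have : y * y ^ 2 ≤ y * Y ^ 2 := mul_le_mul_of_nonneg_left (by nlinarith) h0
    nlinarith
  calc |α * y + β * y ^ 2 + γ * y ^ 3| ≤ |α * y + β * y ^ 2| + |γ * y ^ 3| := abs_add_le _ _
    _ ≤ |α * y| + |β * y ^ 2| + |γ * y ^ 3| := by
        have := abs_add_le (α * y) (β * y ^ 2); linarith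
    _ ≤ _ := by linarith

/-- the constants of the error terms -/
def YY (C₁ : ℝ) : ℝ := (1 + C₁ ^ 2) ^ 3

def B1 (α β γ K C₁ C c : ℝ) : ℝ :=
  (|α| + |β| + |γ|) * C + 729 * (|α| + |β| + |γ|) / c + (|α| + |β| + |γ|) * YY C₁ + K

def B2 (α β γ K C₁ C c : ℝ) : ℝ :=
  C + (|α| + |β| + |γ|) * C + ((|α| + |β| + |γ|) * YY C₁ + K) * (2 + C) +
    6561 * (|α| + |β| + |γ|) / c

theorem core {X : Type} [Fintype X] (o : X) (v w : X → ℝ) {α β γ ν K C₁ C c r N : ℝ}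
    (hν : 0 < ν) (hK : 0 < K) (hC : 0 ≤ C) (hc : 0 < c) (hr : 1 ≤ r)
    (hN : (Fintype.card X : ℝ) = N) (hcN : c * r ^ 10 ≤ N)
    (hv0 : v o = 2 * r ^ 2 + 1) (hw0 : w o = 2 * r ^ 2 + 1)
    (hA : ∀ χ, χ ≠ o → ν * r ^ 2 ≤ v χ ^ 2 →
      |α * (v χ ^ 2 / r ^ 2) + β * (v χ ^ 2 / r ^ 2) ^ 2 + γ * (v χ ^ 2 / r ^ 2) ^ 3 - 1| ≤ K / r)
    (hB : ∀ χ, χ ≠ o → v χ ^ 2 < ν * r ^ 2 → |v χ| ≤ C₁)
    (h20 : |∑ χ, v χ ^ 2 - 2 * r ^ 2 * N| ≤ C * N)
    (h40 : |∑ χ, v χ ^ 4 - 12 * r ^ 4 * N| ≤ C * r ^ 2 * N)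
    (h60 : |∑ χ, v χ ^ 6 - 120 * r ^ 6 * N| ≤ C * r ^ 4 * N)
    (h02 : |∑ χ, w χ ^ 2 - 2 * r ^ 2 * N| ≤ C * N)
    (h22 : |∑ χ, v χ ^ 2 * w χ ^ 2 - 4 * r ^ 4 * N| ≤ C * r ^ 2 * N)
    (h42 : |∑ χ, v χ ^ 4 * w χ ^ 2 - 24 * r ^ 6 * N| ≤ C * r ^ 4 * N)
    (h62 : γ = 0 ∨ |∑ χ, v χ ^ 6 * w χ ^ 2 - 240 * r ^ 8 * N| ≤ C * r ^ 6 * N) :
    (#{χ : X | χ ≠ o ∧ ν * r ^ 2 ≤ v χ ^ 2} : ℝ) ≤
        (2 * α + 12 * β + 120 * γ) * N + B1 α β γ K C₁ C c * N / r ∧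
    (1 - (2 * α + 12 * β + 120 * γ)) * (1 - 2 / ν) * N -
        (B1 α β γ K C₁ C c + 1 / c + B2 α β γ K C₁ C c / ν) * N / r ≤
      ∑ χ ∈ univ.filter (fun χ : X => χ ≠ o ∧ v χ ^ 2 < ν * r ^ 2), (1 - w χ ^ 2 / (ν * r ^ 2)) := by
  set A : ℝ := |α| + |β| + |γ| with hAdef
  have hA0 : 0 ≤ A := by positivity
  set q : X → ℝ := fun χ =>
    α * (v χ ^ 2 / r ^ 2) + β * (v χ ^ 2 / r ^ 2) ^ 2 + γ * (v χ ^ 2 / r ^ 2) ^ 3 with hq
  have hr0 : 0 < r := by linarith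
  have hr2 : 1 ≤ r ^ 2 := by nlinarith
  have hN0 : 0 < N := lt_of_lt_of_le (by positivity) hcN
  have hY0 : 0 ≤ YY C₁ := by unfold YY; positivity
  set NZ : Finset X := univ.filter (fun χ : X => χ ≠ o ∧ ν * r ^ 2 ≤ v χ ^ 2) with hNZ
  set Z : Finset X := univ.filter (fun χ : X => χ ≠ o ∧ v χ ^ 2 < ν * r ^ 2) with hZ
  -- decomposition of the sums
  have hdec : ∀ f : X → ℝ, ∑ χ, f χ = f o + ∑ χ ∈ NZ, f χ + ∑ χ ∈ Z, f χ := by
    intro f
    have h1 : ∑ χ, f χ = f o + ∑ χ ∈ univ.erase o, f χ := by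
      rw [add_sum_erase _ _ (mem_univ o)]
    have h2 : ∑ χ ∈ univ.erase o, f χ = ∑ χ ∈ NZ, f χ + ∑ χ ∈ Z, f χ := by
      rw [← sum_filter_add_sum_filter_not (univ.erase o) (fun χ => ν * r ^ 2 ≤ v χ ^ 2)]
      congr 1
      · refine sum_congr ?_ (fun _ _ => rfl)
        ext χ; simp [hNZ]
      · refine sum_congr ?_ (fun _ _ => rfl)
        ext χ; simp [hZ]
    rw [h1, h2]; ring
  have hcard : (N : ℝ) = 1 + #NZ + #Z := by
    have := hdec (fun _ => 1)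
    simp only [sum_const, card_univ, nsmul_eq_mul, mul_one] at this
    rw [← hN]; exact this
  have hNZle : (#NZ : ℝ) ≤ N := by rw [hcard]; have : (0 : ℝ) ≤ #Z := Nat.cast_nonneg _; linarith
  have hZle : (#Z : ℝ) ≤ N := by rw [hcard]; have : (0 : ℝ) ≤ #NZ := Nat.cast_nonneg _; linarith
  -- the value at `o`
  have hqo : |q o| ≤ A * (729 * r ^ 6) := by
    have hy0 : 0 ≤ v o ^ 2 / r ^ 2 := by positivity
    have hy1 : v o ^ 2 / r ^ 2 ≤ 9 * r ^ 2 := by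
      rw [div_le_iff₀ (by positivity), hv0]
      nlinarith
    have := q_abs α β γ _ (9 * r ^ 2) hy0 hy1 (by nlinarith)
    refine this.trans (mul_le_mul_of_nonneg_left ?_ hA0)
    calc v o ^ 2 / r ^ 2 * (9 * r ^ 2) ^ 2 ≤ (9 * r ^ 2) * (9 * r ^ 2) ^ 2 := by gcongr
      _ = 729 * r ^ 6 := by ring
  have hr6 : r ^ 6 ≤ N / c / r := by
    rw [le_div_iff₀ hr0, le_div_iff₀ hc]
    calc r ^ 6 * r * c = c * (r ^ 7 * 1) := by ring
      _ ≤ c * (r ^ 7 * r ^ 3) := by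
          gcongr
          exact one_le_pow₀ hr
      _ = c * r ^ 10 := by ring
      _ ≤ N := hcN
  -- the values on `Z`
  have hqZ : ∀ χ ∈ Z, |q χ| ≤ A * YY C₁ / r := by
    intro χ hχ
    rw [hZ, mem_filter] at hχ
    have h1 := hB χ hχ.2.1 hχ.2.2
    have h2 : v χ ^ 2 ≤ C₁ ^ 2 := by
      rw [← sq_abs]; gcongr
    have hy0 : 0 ≤ v χ ^ 2 / r ^ 2 := by positivity
    have hy1 : v χ ^ 2 / r ^ 2 ≤ 1 + C₁ ^ 2 := by
      rw [div_le_iff₀ (by positivity)]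
      nlinarith [sq_nonneg C₁]
    have hy2 : v χ ^ 2 / r ^ 2 ≤ (1 + C₁ ^ 2) / r := by
      rw [div_le_div_iff₀ (by positivity) hr0]
      have : v χ ^ 2 * r ≤ (1 + C₁ ^ 2) * r := by gcongr; linarith
      have h3 : (1 + C₁ ^ 2) * r ≤ (1 + C₁ ^ 2) * r ^ 2 := by
        gcongr; nlinarith
      linarith
    have := q_abs α β γ _ (1 + C₁ ^ 2) hy0 hy1 (by nlinarith [sq_nonneg C₁])
    refine this.trans ?_
    rw [mul_div_assoc]
    refine mul_le_mul_of_nonneg_left ?_ hA0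
    calc v χ ^ 2 / r ^ 2 * (1 + C₁ ^ 2) ^ 2 ≤ (1 + C₁ ^ 2) / r * (1 + C₁ ^ 2) ^ 2 := by gcongr
      _ = YY C₁ / r := by unfold YY; ring
  -- the values on `NZ`
  have hqN : ∀ χ ∈ NZ, |q χ - 1| ≤ K / r := by
    intro χ hχ
    rw [hNZ, mem_filter] at hχ
    exact hA χ hχ.2.1 hχ.2.2
  -- the sum of the values
  have hsum : |∑ χ, q χ - (2 * α + 12 * β + 120 * γ) * N| ≤ A * C * N / r := by
    have e1 : ∑ χ, q χ = α * ((∑ χ, v χ ^ 2) / r ^ 2) + β * ((∑ χ, v χ ^ 4) / r ^ 4) +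
        γ * ((∑ χ, v χ ^ 6) / r ^ 6) := by
      simp only [hq, sum_add_distrib, ← mul_sum]
      congr 1
      · congr 1
        · rw [sum_div]
        · rw [sum_div]
          congr 1
          refine sum_congr rfl (fun χ _ => ?_)
          rw [div_pow]; ring
      · rw [sum_div]
        congr 1
        refine sum_congr rfl (fun χ _ => ?_)
        rw [div_pow]; ring
    have e2 : ∑ χ, q χ - (2 * α + 12 * β + 120 * γ) * N =
        α * ((∑ χ, v χ ^ 2 - 2 * r ^ 2 * N) / r ^ 2) +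
        β * ((∑ χ, v χ ^ 4 - 12 * r ^ 4 * N) / r ^ 4) +
        γ * ((∑ χ, v χ ^ 6 - 120 * r ^ 6 * N) / r ^ 6) := by
      rw [e1]; field_simp; ring
    have hb1 : |(∑ χ, v χ ^ 2 - 2 * r ^ 2 * N) / r ^ 2| ≤ C * N / r := by
      rw [abs_div, abs_of_pos (by positivity : 0 < r ^ 2), div_le_div_iff₀ (by positivity) hr0]
      calc |∑ χ, v χ ^ 2 - 2 * r ^ 2 * N| * r ≤ C * N * r := by gcongr
        _ ≤ C * N * r ^ 2 := by
            gcongr; nlinarith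
    have hb2 : |(∑ χ, v χ ^ 4 - 12 * r ^ 4 * N) / r ^ 4| ≤ C * N / r := by
      rw [abs_div, abs_of_pos (by positivity : 0 < r ^ 4), div_le_div_iff₀ (by positivity) hr0]
      calc |∑ χ, v χ ^ 4 - 12 * r ^ 4 * N| * r ≤ C * r ^ 2 * N * r := by gcongr
        _ = C * N * (r ^ 3 * 1) := by ring
        _ ≤ C * N * (r ^ 3 * r) := by gcongr
        _ = C * N * r ^ 4 := by ring
    have hb3 : |(∑ χ, v χ ^ 6 - 120 * r ^ 6 * N) / r ^ 6| ≤ C * N / r := by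
      rw [abs_div, abs_of_pos (by positivity : 0 < r ^ 6), div_le_div_iff₀ (by positivity) hr0]
      calc |∑ χ, v χ ^ 6 - 120 * r ^ 6 * N| * r ≤ C * r ^ 4 * N * r := by gcongr
        _ = C * N * (r ^ 5 * 1) := by ring
        _ ≤ C * N * (r ^ 5 * r) := by gcongr
        _ = C * N * r ^ 6 := by ring
    rw [e2]
    calc _ ≤ |α * ((∑ χ, v χ ^ 2 - 2 * r ^ 2 * N) / r ^ 2)| +
          |β * ((∑ χ, v χ ^ 4 - 12 * r ^ 4 * N) / r ^ 4)| +
          |γ * ((∑ χ, v χ ^ 6 - 120 * r ^ 6 * N) / r ^ 6)| := abs_add_three _ _ _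
      _ ≤ |α| * (C * N / r) + |β| * (C * N / r) + |γ| * (C * N / r) := by
          rw [abs_mul, abs_mul, abs_mul]
          gcongr
      _ = A * C * N / r := by rw [hAdef]; ring
  have hKr : 0 ≤ K / r := by positivity
  -- part 1
  have hp1 : (#NZ : ℝ) ≤ (2 * α + 12 * β + 120 * γ) * N + B1 α β γ K C₁ C c * N / r := by
    have h1 := hdec q
    have h2 : (#NZ : ℝ) - N * (K / r) ≤ ∑ χ ∈ NZ, q χ := by
      have h3 : ∑ χ ∈ NZ, (1 - K / r) ≤ ∑ χ ∈ NZ, q χ :=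
        sum_le_sum (fun χ hχ => by have := (abs_le.1 (hqN χ hχ)).1; linarith)
      rw [sum_const, nsmul_eq_mul] at h3
      have h4 : (#NZ : ℝ) * (K / r) ≤ N * (K / r) := by gcongr
      linarith
    have h5 : -(N * (A * YY C₁ / r)) ≤ ∑ χ ∈ Z, q χ := by
      have h3 : ∑ χ ∈ Z, (-(A * YY C₁ / r)) ≤ ∑ χ ∈ Z, q χ :=
        sum_le_sum (fun χ hχ => (abs_le.1 (hqZ χ hχ)).1)
      rw [sum_const, nsmul_eq_mul] at h3
      have h4 : (#Z : ℝ) * (A * YY C₁ / r) ≤ N * (A * YY C₁ / r) := by gcongr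
      linarith
    have h6 : -(A * (729 * (N / c / r))) ≤ q o := by
      have h7 := (abs_le.1 hqo).1
      have h8 : A * (729 * r ^ 6) ≤ A * (729 * (N / c / r)) := by gcongr
      linarith
    have h9 := (abs_le.1 hsum).2
    have e : B1 α β γ K C₁ C c * N / r = A * C * N / r + A * (729 * (N / c / r)) +
        N * (A * YY C₁ / r) + N * (K / r) := by
      unfold B1; rw [hAdef]; field_simp
    rw [e]
    linarith
  refine ⟨hp1, ?_⟩
  -- part 2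
  set κ : ℝ := A * YY C₁ + K with hκ
  have hκ0 : 0 ≤ κ := by positivity
  have hZw : ∑ χ ∈ Z, w χ ^ 2 ≤ 2 * r ^ 2 * N * (1 - (2 * α + 12 * β + 120 * γ)) +
      B2 α β γ K C₁ C c * r * N := by
    set g : X → ℝ := fun χ => (1 - q χ + κ / r) * w χ ^ 2 with hg
    have h1 := hdec g
    have h2 : ∑ χ ∈ Z, w χ ^ 2 ≤ ∑ χ ∈ Z, g χ := by
      refine sum_le_sum (fun χ hχ => ?_)
      have h3 := (abs_le.1 (hqZ χ hχ)).2
      have h4 : κ / r = A * YY C₁ / r + K / r := by rw [hκ]; ring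
      have h5 : 1 ≤ 1 - q χ + κ / r := by rw [h4]; linarith
      have : 1 * w χ ^ 2 ≤ (1 - q χ + κ / r) * w χ ^ 2 := by gcongr
      simpa [hg] using this
    have h6 : 0 ≤ ∑ χ ∈ NZ, g χ := by
      refine sum_nonneg (fun χ hχ => ?_)
      have h3 := (abs_le.1 (hqN χ hχ)).2
      have h4 : κ / r = A * YY C₁ / r + K / r := by rw [hκ]; ring
      have h4' : 0 ≤ A * YY C₁ / r := by positivity
      have h5 : 0 ≤ 1 - q χ + κ / r := by rw [h4]; linarith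
      exact mul_nonneg h5 (by positivity)
    have h7 : -(6561 * A / c * (r * N)) ≤ g o := by
      have h8 := (abs_le.1 hqo).2
      have h9 : w o ^ 2 ≤ 9 * r ^ 4 := by rw [hw0]; nlinarith
      have h10 : 0 ≤ 1 + κ / r := by positivity
      have h11 : -(q o) * w o ^ 2 ≤ g o := by
        simp only [hg]
        have := mul_nonneg h10 (sq_nonneg (w o))
        nlinarith
      have h12 : q o * w o ^ 2 ≤ A * (729 * r ^ 6) * (9 * r ^ 4) := by
        calc q o * w o ^ 2 ≤ A * (729 * r ^ 6) * w o ^ 2 := by gcongr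
          _ ≤ _ := by gcongr
      have h13 : A * (729 * r ^ 6) * (9 * r ^ 4) ≤ 6561 * A / c * (r * N) := by
        have h14 : r ^ 10 ≤ N / c := by rw [le_div_iff₀ hc]; linarith
        calc A * (729 * r ^ 6) * (9 * r ^ 4) = 6561 * A * (1 * r ^ 10) := by ring
          _ ≤ 6561 * A * (r * (N / c)) := by gcongr
          _ = _ := by ring
      linarith
    -- the full sum
    have h15 : ∑ χ, g χ = (1 + κ / r) * ∑ χ, w χ ^ 2 -
        (α * ((∑ χ, v χ ^ 2 * w χ ^ 2) / r ^ 2) + β * ((∑ χ, v χ ^ 4 * w χ ^ 2) / r ^ 4) +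
        γ * ((∑ χ, v χ ^ 6 * w χ ^ 2) / r ^ 6)) := by
      have e1 : ∀ χ, g χ = (1 + κ / r) * w χ ^ 2 -
          (α * ((v χ ^ 2 * w χ ^ 2) / r ^ 2) + β * ((v χ ^ 4 * w χ ^ 2) / r ^ 4) +
          γ * ((v χ ^ 6 * w χ ^ 2) / r ^ 6)) := by
        intro χ
        simp only [hg, hq]
        field_simp
        ring
      simp only [e1, sum_sub_distrib, sum_add_distrib, ← mul_sum, ← sum_div]
    have hb1 : -(|α| * (C * N)) ≤ α * ((∑ χ, v χ ^ 2 * w χ ^ 2) / r ^ 2) - α * (4 * r ^ 2 * N) := by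
      have e : α * ((∑ χ, v χ ^ 2 * w χ ^ 2) / r ^ 2) - α * (4 * r ^ 2 * N) =
          α * ((∑ χ, v χ ^ 2 * w χ ^ 2 - 4 * r ^ 4 * N) / r ^ 2) := by field_simp
      rw [e]
      have h : |α * ((∑ χ, v χ ^ 2 * w χ ^ 2 - 4 * r ^ 4 * N) / r ^ 2)| ≤ |α| * (C * N) := by
        rw [abs_mul, abs_div, abs_of_pos (by positivity : 0 < r ^ 2)]
        gcongr
        rw [div_le_iff₀ (by positivity)]
        linarith
      exact (abs_le.1 h).1
    have hb2 : -(|β| * (C * N)) ≤ β * ((∑ χ, v χ ^ 4 * w χ ^ 2) / r ^ 4) -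
        β * (24 * r ^ 2 * N) := by
      have e : β * ((∑ χ, v χ ^ 4 * w χ ^ 2) / r ^ 4) - β * (24 * r ^ 2 * N) =
          β * ((∑ χ, v χ ^ 4 * w χ ^ 2 - 24 * r ^ 6 * N) / r ^ 4) := by field_simp
      rw [e]
      have h : |β * ((∑ χ, v χ ^ 4 * w χ ^ 2 - 24 * r ^ 6 * N) / r ^ 4)| ≤ |β| * (C * N) := by
        rw [abs_mul, abs_div, abs_of_pos (by positivity : 0 < r ^ 4)]
        gcongr
        rw [div_le_iff₀ (by positivity)]
        linarith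
      exact (abs_le.1 h).1
    have hb3 : -(|γ| * (C * N)) ≤ γ * ((∑ χ, v χ ^ 6 * w χ ^ 2) / r ^ 6) -
        γ * (240 * r ^ 2 * N) := by
      rcases h62 with h0 | h62
      · rw [h0]; simp
      have e : γ * ((∑ χ, v χ ^ 6 * w χ ^ 2) / r ^ 6) - γ * (240 * r ^ 2 * N) =
          γ * ((∑ χ, v χ ^ 6 * w χ ^ 2 - 240 * r ^ 8 * N) / r ^ 6) := by field_simp
      rw [e]
      have h : |γ * ((∑ χ, v χ ^ 6 * w χ ^ 2 - 240 * r ^ 8 * N) / r ^ 6)| ≤ |γ| * (C * N) := by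
        rw [abs_mul, abs_div, abs_of_pos (by positivity : 0 < r ^ 6)]
        gcongr
        rw [div_le_iff₀ (by positivity)]
        linarith
      exact (abs_le.1 h).1
    have hb4 : ∑ χ, w χ ^ 2 ≤ 2 * r ^ 2 * N + C * N := by
      have := (abs_le.1 h02).2; linarith
    have hb5 : (1 + κ / r) * ∑ χ, w χ ^ 2 ≤ 2 * r ^ 2 * N + C * (r * N) +
        κ * (2 + C) * (r * N) := by
      have e0 : (1 + κ / r) * ∑ χ, w χ ^ 2 ≤ (1 + κ / r) * (2 * r ^ 2 * N + C * N) := by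
        have : 0 ≤ 1 + κ / r := by positivity
        gcongr
      have e1 : (1 + κ / r) * (2 * r ^ 2 * N + C * N) =
          2 * r ^ 2 * N + C * (1 * N) + κ * (2 + C / r ^ 2) * (r * N) := by
        field_simp
      have e2 : C / r ^ 2 ≤ C := div_le_self hC hr2
      rw [e1] at e0
      refine e0.trans ?_
      gcongr
    have e : B2 α β γ K C₁ C c * r * N = C * (r * N) + A * C * (r * N) +
        κ * (2 + C) * (r * N) + 6561 * A / c * (r * N) := by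
      unfold B2; rw [hκ, hAdef]; ring
    have hCN : A * C * N ≤ A * C * (r * N) := by
      have : A * C * (1 * N) ≤ A * C * (r * N) := by gcongr
      linarith
    have hACN : |α| * (C * N) + |β| * (C * N) + |γ| * (C * N) = A * C * N := by
      rw [hAdef]; ring
    have hfin : ∑ χ ∈ Z, w χ ^ 2 ≤ ∑ χ, g χ - g o := by linarith
    rw [e]
    rw [h15] at hfin
    linarith
  -- conclusion
  have hone : 1 ≤ 1 / c * N / r := by
    rw [le_div_iff₀ hr0, one_mul, one_div, inv_mul_eq_div, le_div_iff₀ hc]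
    calc r * c = c * (r * 1) := by ring
      _ ≤ c * (r * r ^ 9) := by
          gcongr
          exact one_le_pow₀ hr
      _ = c * r ^ 10 := by ring
      _ ≤ N := hcN
  have hZc : (1 - (2 * α + 12 * β + 120 * γ)) * N - (B1 α β γ K C₁ C c + 1 / c) * N / r ≤ #Z := by
    have e : (B1 α β γ K C₁ C c + 1 / c) * N / r = B1 α β γ K C₁ C c * N / r + 1 / c * N / r := by
      ring
    rw [e]
    linarith
  have hS : ∑ χ ∈ Z, (1 - w χ ^ 2 / (ν * r ^ 2)) = #Z - (∑ χ ∈ Z, w χ ^ 2) / (ν * r ^ 2) := by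
    rw [sum_sub_distrib, sum_const, nsmul_eq_mul, mul_one, ← sum_div]
  rw [hS]
  have h3 : (∑ χ ∈ Z, w χ ^ 2) / (ν * r ^ 2) ≤
      (2 * r ^ 2 * N * (1 - (2 * α + 12 * β + 120 * γ)) + B2 α β γ K C₁ C c * r * N) /
        (ν * r ^ 2) := by gcongr
  have e3 : (2 * r ^ 2 * N * (1 - (2 * α + 12 * β + 120 * γ)) + B2 α β γ K C₁ C c * r * N) /
        (ν * r ^ 2) = 2 / ν * (1 - (2 * α + 12 * β + 120 * γ)) * N +
          B2 α β γ K C₁ C c / ν * N / r := by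
    field_simp
  rw [e3] at h3
  have e4 : (1 - (2 * α + 12 * β + 120 * γ)) * (1 - 2 / ν) * N -
        (B1 α β γ K C₁ C c + 1 / c + B2 α β γ K C₁ C c / ν) * N / r =
      (1 - (2 * α + 12 * β + 120 * γ)) * N - (B1 α β γ K C₁ C c + 1 / c) * N / r -
      (2 / ν * (1 - (2 * α + 12 * β + 120 * γ)) * N + B2 α β γ K C₁ C c / ν * N / r) := by
    ring
  rw [e4]
  linarith

theorem zc (hSR : T_SR) (hMO : T_MO) (hFM : T_FM) (hAA : T_AA) : T_ZC := by
  intro s α β γ ν hs hγ hν hDS η hη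
  obtain ⟨c, hc, hcm⟩ := hAA.1 s hs
  obtain ⟨K₀, hK₀, hSRs⟩ := hSR s (by omega)
  obtain ⟨K, m₁, hK, hD⟩ := hDS K₀ hK₀
  obtain ⟨C, hC⟩ := hFM
  have hC0 : 0 ≤ C := le_trans (abs_nonneg _) (hC 1 le_rfl).1
  set D1 : ℝ := B1 α β γ K (7 * K) C c with hD1
  set D3 : ℝ := B1 α β γ K (7 * K) C c + 1 / c + B2 α β γ K (7 * K) C c / ν with hD3
  refine ⟨⌈((|D1| + |D3|) / η) ^ 2⌉₊ + ⌈ν⌉₊ + m₁ + 1, fun m hm G _ _ T hT => ?_⟩
  have hm1 : 1 ≤ m := by omega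
  have hmr1 : (1 : ℝ) ≤ m := by exact_mod_cast hm1
  have hmm1 : (m₁ : ℝ) ≤ m := by
    have : m₁ ≤ m := by omega
    exact_mod_cast this
  have hνm : ν ≤ m := by
    have h : (⌈ν⌉₊ : ℝ) ≤ m := by
      have : ⌈ν⌉₊ ≤ m := by omega
      exact_mod_cast this
    exact (Nat.le_ceil ν).trans h
  have hrm : (|D1| + |D3|) / η ≤ √(m : ℝ) := by
    refine Real.le_sqrt_of_sq_le ?_
    have h : (⌈((|D1| + |D3|) / η) ^ 2⌉₊ : ℝ) ≤ m := by
      have : ⌈((|D1| + |D3|) / η) ^ 2⌉₊ ≤ m := by omega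
      exact_mod_cast this
    exact (Nat.le_ceil _).trans h
  set r : ℝ := √(m : ℝ) with hr
  have hr2 : r ^ 2 = m := Real.sq_sqrt (by positivity)
  have hr1 : 1 ≤ r := by
    rw [hr]; exact Real.one_le_sqrt.2 hmr1
  have hr0 : 0 < r := by linarith
  obtain ⟨hIm, hMom⟩ := hMO G T hT.neg_mem
  set N : ℝ := (Fintype.card G : ℝ) with hN
  have hN0 : 0 < N := by
    rw [hN]; exact_mod_cast Fintype.card_pos
  have hcardX : (Fintype.card (AddChar G ℂ) : ℝ) = N := by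
    rw [hN, AddChar.card_eq]
  have hcN : c * r ^ 10 ≤ N := by
    have h := hcm m
    rw [← hT.cardG] at h
    have e : r ^ 10 = (m : ℝ) ^ 5 := by rw [← hr2]; ring
    rw [e]; exact h
  -- the character sums
  have hv0 : v T (0 : AddChar G ℂ) = 2 * r ^ 2 + 1 := by
    have h : V T (0 : AddChar G ℂ) = ((#T : ℝ) : ℂ) := by
      simp [V]
    rw [v, h, Complex.ofReal_re, hT.card, hr2]
    push_cast; ring
  have hvle : ∀ χ : AddChar G ℂ, |v T χ| ≤ 3 * m := by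
    intro χ
    have h1 : |v T χ| ≤ ‖V T χ‖ := Complex.abs_re_le_norm _
    have h2 : ‖V T χ‖ ≤ ∑ x ∈ T, ‖χ x‖ := norm_sum_le _ _
    have h3 : ∑ x ∈ T, ‖χ x‖ = #T := by
      simp [AddChar.norm_apply]
    rw [h3, hT.card] at h2
    push_cast at h2
    linarith
  have hchar := hT.char
  have hub : ∀ χ : AddChar G ℂ, χ ≠ 0 → |v T χ| ≤ K₀ * r := by
    intro χ hχ
    exact hSRs (AddChar G ℂ) (v T) m hmr1 (by rw [hv0, hr2]) hchar χ hχ
  have h2ne : ∀ χ : AddChar G ℂ, χ ≠ 0 → (2 : ℕ) • χ ≠ 0 := by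
    intro χ hχ h
    have h1 : addOrderOf χ ∣ 2 := addOrderOf_dvd_of_nsmul_eq_zero h
    have h2 : addOrderOf χ ∣ Fintype.card (AddChar G ℂ) := addOrderOf_dvd_card
    rw [AddChar.card_eq] at h2
    have h3 : addOrderOf χ ∣ Nat.gcd 2 (Fintype.card G) := Nat.dvd_gcd h1 h2
    have h4 : Nat.gcd 2 (Fintype.card G) = 1 := Nat.coprime_two_left.2 hT.odd
    rw [h4, Nat.dvd_one, AddMonoid.addOrderOf_eq_one_iff] at h3
    exact hχ h3
  have hdich : ∀ χ : AddChar G ℂ, χ ≠ 0 →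
      (ν * m ≤ v T χ ^ 2 →
        |α * (v T χ ^ 2 / m) + β * (v T χ ^ 2 / m) ^ 2 + γ * (v T χ ^ 2 / m) ^ 3 - 1| ≤ K / r) ∧
      (v T χ ^ 2 < ν * m → |v T χ| ≤ 7 * K) := by
    intro χ hχ
    have h := hD m hmm1 (fun k => v T (k • χ)) (by simpa using hub χ hχ)
      (hub _ (h2ne χ hχ)) (fun k _ _ => hvle _) (hchar χ hχ)
    simp only [one_smul] at h
    refine ⟨h.1, fun hlt => (h.2 hlt).trans ?_⟩
    have e1 : |v T (3 • χ)| / m ≤ 3 := by
      rw [div_le_iff₀ (by positivity)]; exact hvle _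
    have e2 : |v T (5 • χ)| / (m : ℝ) ^ 2 ≤ 3 := by
      rw [div_le_iff₀ (by positivity)]
      have := hvle (5 • χ)
      nlinarith
    have e3 : 1 / (m : ℝ) ^ 2 ≤ 1 := by
      rw [div_le_iff₀ (by positivity)]
      nlinarith
    nlinarith
  have hm0 := hC m hm1
  have hw : ∀ a b : ℕ, a + 3 * b ≤ 2 * s → ∑ χ : AddChar G ℂ, v T χ ^ a * v T (3 • χ) ^ b =
      N * RW (ball (Fin m) 1) a b := by
    intro a b hab
    rw [hMom, hT.words a b hab]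
  have hgen : ∀ (a b : ℕ) (t e : ℝ), a + 3 * b ≤ 2 * s →
      |(RW (ball (Fin m) 1) a b : ℝ) - t| ≤ e →
      |∑ χ : AddChar G ℂ, v T χ ^ a * v T (3 • χ) ^ b - t * N| ≤ e * N := by
    intro a b t e hab h
    rw [hw a b hab]
    have : N * (RW (ball (Fin m) 1) a b : ℝ) - t * N =
        ((RW (ball (Fin m) 1) a b : ℝ) - t) * N := by ring
    rw [this, abs_mul, abs_of_pos hN0]
    gcongr
  have h20 : |∑ χ : AddChar G ℂ, v T χ ^ 2 - 2 * r ^ 2 * N| ≤ C * N := by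
    have := hgen 2 0 _ _ (by omega) hm0.1
    simpa [hr2] using this
  have h40 : |∑ χ : AddChar G ℂ, v T χ ^ 4 - 12 * r ^ 4 * N| ≤ C * r ^ 2 * N := by
    have := hgen 4 0 _ _ (by omega) hm0.2.1
    have e : r ^ 4 = (m : ℝ) ^ 2 := by rw [← hr2]; ring
    simpa [hr2, e] using this
  have h60 : |∑ χ : AddChar G ℂ, v T χ ^ 6 - 120 * r ^ 6 * N| ≤ C * r ^ 4 * N := by
    have := hgen 6 0 _ _ (by omega) hm0.2.2.1
    have e : r ^ 4 = (m : ℝ) ^ 2 := by rw [← hr2]; ring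
    have e' : r ^ 6 = (m : ℝ) ^ 3 := by rw [← hr2]; ring
    simpa [e', e] using this
  have h02 : |∑ χ : AddChar G ℂ, v T (3 • χ) ^ 2 - 2 * r ^ 2 * N| ≤ C * N := by
    have := hgen 0 2 _ _ (by omega) hm0.2.2.2.1
    simpa [hr2] using this
  have h22 : |∑ χ : AddChar G ℂ, v T χ ^ 2 * v T (3 • χ) ^ 2 - 4 * r ^ 4 * N| ≤
      C * r ^ 2 * N := by
    have := hgen 2 2 _ _ (by omega) hm0.2.2.2.2.1
    have e : r ^ 4 = (m : ℝ) ^ 2 := by rw [← hr2]; ring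
    simpa [hr2, e] using this
  have h42 : |∑ χ : AddChar G ℂ, v T χ ^ 4 * v T (3 • χ) ^ 2 - 24 * r ^ 6 * N| ≤
      C * r ^ 4 * N := by
    have := hgen 4 2 _ _ (by omega) hm0.2.2.2.2.2.1
    have e : r ^ 4 = (m : ℝ) ^ 2 := by rw [← hr2]; ring
    have e' : r ^ 6 = (m : ℝ) ^ 3 := by rw [← hr2]; ring
    simpa [e', e] using this
  have h62 : γ = 0 ∨ |∑ χ : AddChar G ℂ, v T χ ^ 6 * v T (3 • χ) ^ 2 - 240 * r ^ 8 * N| ≤
      C * r ^ 6 * N := by
    rcases hγ with h | h6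
    · exact Or.inl h
    right
    have := hgen 6 2 _ _ (by omega) hm0.2.2.2.2.2.2
    have e : r ^ 8 = (m : ℝ) ^ 4 := by rw [← hr2]; ring
    have e' : r ^ 6 = (m : ℝ) ^ 3 := by rw [← hr2]; ring
    simpa [e', e] using this
  have hcore := core (0 : AddChar G ℂ) (v T) (fun χ => v T (3 • χ)) (α := α) (β := β) (γ := γ)
    (ν := ν) (K := K) (C₁ := 7 * K) (C := C) (c := c) (r := r) (N := N) hν hK hC0 hc hr1 hcardX
    hcN hv0 (by simpa using hv0)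
    (fun χ hχ h => by
      have := (hdich χ hχ).1 (by rw [← hr2]; exact h)
      rw [← hr2] at this
      exact this)
    (fun χ hχ h => (hdich χ hχ).2 (by rw [← hr2]; exact h)) h20 h40 h60 h02 h22 h42 h62
  rw [hr2] at hcore
  obtain ⟨hc1, hc2⟩ := hcore
  have hbd : ∀ D : ℝ, |D| ≤ |D1| + |D3| → D * N / r ≤ η * N := by
    intro D hDD
    rw [div_le_iff₀ hr0]
    have h1 : |D1| + |D3| ≤ r * η := (div_le_iff₀ hη).1 hrm
    have h2 : D ≤ r * η := (le_abs_self D).trans (hDD.trans h1)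
    calc D * N ≤ r * η * N := by gcongr
      _ = η * N * r := by ring
  constructor
  · have := hbd D1 (by have := abs_nonneg D3; linarith)
    have e : (2 * α + 12 * β + 120 * γ + η) * N = (2 * α + 12 * β + 120 * γ) * N + η * N := by ring
    rw [e]
    refine hc1.trans ?_
    linarith
  · have h3 := hbd D3 (by have := abs_nonneg D1; linarith)
    have h4 : ∑ χ ∈ univ.filter (fun χ : AddChar G ℂ => χ ≠ 0 ∧ v T χ ^ 2 < ν * m),
        (1 - v T (3 • χ) ^ 2 / (ν * m)) ≤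
        (#{χ : AddChar G ℂ | χ ≠ 0 ∧ v T χ ^ 2 < ν * m ∧ 3 • χ ≠ 0 ∧
          v T (3 • χ) ^ 2 < ν * m} : ℝ) := by
      have hνm0 : 0 < ν * m := by positivity
      have h5 : ∀ χ ∈ univ.filter (fun χ : AddChar G ℂ => χ ≠ 0 ∧ v T χ ^ 2 < ν * m),
          1 - v T (3 • χ) ^ 2 / (ν * m) ≤
            if (3 • χ ≠ 0 ∧ v T (3 • χ) ^ 2 < ν * m) then (1 : ℝ) else 0 := by
        intro χ _
        split_ifs with h
        · have : 0 ≤ v T (3 • χ) ^ 2 / (ν * m) := by positivity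
          linarith
        · have h6 : ν * m ≤ v T (3 • χ) ^ 2 := by
            by_cases h7 : 3 • χ = 0
            · rw [h7, hv0, hr2]
              have : ν * m ≤ m * m := by gcongr
              nlinarith
            · by_contra h8
              exact h ⟨h7, not_le.1 h8⟩
          have : 1 ≤ v T (3 • χ) ^ 2 / (ν * m) := by
            rw [le_div_iff₀ hνm0]; linarith
          linarith
      refine (sum_le_sum h5).trans ?_
      rw [← sum_filter, sum_const, nsmul_eq_mul, mul_one, filter_filter]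
      apply le_of_eq
      congr 2
      ext χ
      simp [and_assoc]
    have e : ((1 - (2 * α + 12 * β + 120 * γ)) * (1 - 2 / ν) - η) * N =
      (1 - (2 * α + 12 * β + 120 * γ)) * (1 - 2 / ν) * N - η * N := by ring
    rw [e]
    linarith

end

end Pool.Agent.H80.GB.ZC
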